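import Pool.Agent.H257K.Lin

set_option autoImplicit false
set_option linter.unusedSectionVars false

namespace H257K

open Equiv Polynomial

attribute [local irreducible] r

/-- Generating function of the absolute length. -/
noncomputable def GF (α : Type) [Fintype α] [DecidableEq α] : ℤ[X] := ∑ w : Perm α, X ^ r w

theorem GF_congr {α β : Type} [Fintype α] [DecidableEq α] [Fintype β] [DecidableEq β] (e : α ≃ β) :
    GF α = GF β := by
  unfold GF
  rw [← Equiv.sum_comp e.permCongr]
  exact Finset.sum_congr rfl fun w _ => by rw [r_congr]

theorem r_dec_none {α : Type} [Fintype α] [DecidableEq α] (σ : Perm α) :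
    r (swap none none * optionCongr σ : Perm (Option α)) = r σ := by
  rw [swap_self, ← Perm.one_def, one_mul, r_option]

theorem r_dec_some {α : Type} [Fintype α] [DecidableEq α] (σ : Perm α) (a : α) :
    r (swap none (some a) * optionCongr σ : Perm (Option α)) = r σ + 1 := by
  rw [r_swap_fixed (z := none) (p := some a) (w := optionCongr σ) (by simp) (by simp), r_option]

theorem sum_dec {α : Type} [Fintype α] [DecidableEq α] (f : Perm (Option α) → ℤ[X]) :
    ∑ w : Perm (Option α), f w = ∑ σ : Perm α, f (swap none none * optionCongr σ) +
      ∑ a : α, ∑ σ : Perm α, f (swap none (some a) * optionCongr σ) := by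
  rw [← Equiv.sum_comp Perm.decomposeOption.symm, Fintype.sum_prod_type, Fintype.sum_option]
  rfl

theorem GF_option {α : Type} [Fintype α] [DecidableEq α] :
    GF (Option α) = (1 + C (Fintype.card α : ℤ) * X) * GF α := by
  unfold GF
  rw [sum_dec]
  have h1 : ∑ σ : Perm α, (X : ℤ[X]) ^ r (swap none none * optionCongr σ : Perm (Option α)) =
      ∑ σ : Perm α, X ^ r σ := Finset.sum_congr rfl fun σ _ => by rw [r_dec_none]
  have h2 : ∑ a : α, ∑ σ : Perm α, (X : ℤ[X]) ^ r (swap none (some a) * optionCongr σ : Perm (Option α)) =
      ∑ a : α, X * ∑ σ : Perm α, X ^ r σ := by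
    refine Finset.sum_congr rfl fun a _ => ?_
    rw [Finset.mul_sum]
    refine Finset.sum_congr rfl fun σ _ => ?_
    rw [r_dec_some, pow_succ']
  rw [h1, h2, Finset.sum_const, Finset.card_univ, nsmul_eq_mul]
  simp only [map_natCast]
  ring

theorem GF_fin (n : ℕ) : GF (Fin (n + 1)) = ∏ i ∈ Finset.range n, (1 + C ((i : ℤ) + 1) * X) := by
  induction n with
  | zero =>
    unfold GF
    rw [Finset.range_zero, Finset.prod_empty]
    have : ∀ w : Perm (Fin (0 + 1)), w = 1 := by
      intro w
      ext x
      have h1 := (w x).isLt
      have h2 := ((1 : Perm (Fin (0 + 1))) x).isLt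
      omega
    have h3 : (Finset.univ : Finset (Perm (Fin (0 + 1)))) = {1} := by
      ext w; simp [this w]
    rw [h3, Finset.sum_singleton, r_one, pow_zero]
  | succ n ih =>
    rw [GF_congr (finSuccEquiv (n + 1)), GF_option, ih, Finset.prod_range_succ, Fintype.card_fin]
    push_cast
    ring

/-- Weight function. -/
noncomputable def fw (β : Type) [Fintype β] [DecidableEq β] (w : Perm (Option (Option β))) : ℤ[X] :=
  X ^ (r w + if (w none = some none ∧ w (some none) = none) then 2 else 0)

/-- Weight function. -/
noncomputable def gw (β : Type) [Fintype β] [DecidableEq β] (σ : Perm (Option β)) : ℤ[X] :=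
  X ^ (r σ + 1 + if σ none = none then 2 else 0)

section
variable {β : Type} [Fintype β] [DecidableEq β]

theorem fw1 (σ : Perm (Option β)) : fw β (swap none none * optionCongr σ) = X ^ r σ := by
  unfold fw
  have : ¬ ((swap none none * optionCongr σ : Perm (Option (Option β))) none = some none ∧
        (swap none none * optionCongr σ : Perm (Option (Option β))) (some none) = none) := by
    intro h
    have := h.1
    rw [swap_self, Perm.mul_apply, Equiv.optionCongr_apply] at this
    exact absurd this (by simp)
  rw [r_dec_none, if_neg this, add_zero]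

theorem fw2 (b : β) (σ : Perm (Option β)) :
    fw β (swap none (some (some b)) * optionCongr σ) = X * X ^ r σ := by
  unfold fw
  have : ¬ ((swap none (some (some b)) * optionCongr σ : Perm (Option (Option β))) none = some none ∧
        (swap none (some (some b)) * optionCongr σ : Perm (Option (Option β))) (some none) = none) := by
    intro h
    have := h.1
    rw [Perm.mul_apply, Equiv.optionCongr_apply, Option.map_none, swap_apply_left] at this
    exact absurd this (by simp)
  rw [r_dec_some, if_neg this, add_zero, pow_succ']

theorem fw3 (σ : Perm (Option β)) :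
    fw β (swap none (some none) * optionCongr σ) = gw β σ := by
  unfold fw gw
  rw [r_dec_some]
  have e1 : (swap none (some none) * optionCongr σ : Perm (Option (Option β))) none = some none := by
    rw [Perm.mul_apply, Equiv.optionCongr_apply, Option.map_none, swap_apply_left]
  have e2 : (swap none (some none) * optionCongr σ : Perm (Option (Option β))) (some none) = none ↔
      σ none = none := by
    rw [Perm.mul_apply, Equiv.optionCongr_apply, Option.map_some]
    constructor
    · intro h
      by_contra hne
      rw [swap_apply_of_ne_of_ne (by simp) (by simpa using hne)] at h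
      exact absurd h (by simp)
    · intro h
      rw [h, swap_apply_right]
  by_cases h : σ none = none
  · rw [if_pos ⟨e1, e2.2 h⟩, if_pos h]
  · rw [if_neg (fun hh => h (e2.1 hh.2)), if_neg h]

theorem gw1 (τ : Perm β) : gw β (swap none none * optionCongr τ) = X ^ 3 * X ^ r τ := by
  unfold gw
  have : (swap none none * optionCongr τ : Perm (Option β)) none = none := by
    rw [swap_self, Perm.mul_apply, Equiv.optionCongr_apply]; rfl
  rw [r_dec_none, if_pos this, ← pow_add]
  congr 1; omega

theorem gw2 (b : β) (τ : Perm β) : gw β (swap none (some b) * optionCongr τ) = X ^ 2 * X ^ r τ := by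
  unfold gw
  have : ¬ (swap none (some b) * optionCongr τ : Perm (Option β)) none = none := by
    rw [Perm.mul_apply, Equiv.optionCongr_apply, Option.map_none, swap_apply_left]
    simp
  rw [r_dec_some, if_neg this, ← pow_add]
  congr 1; omega

theorem GF2 :
    ∑ w : Perm (Option (Option β)), fw β w =
      (1 + C (2 * (Fintype.card β : ℤ)) * X +
        C ((Fintype.card β : ℤ) * (Fintype.card β + 1)) * X ^ 2 + X ^ 3) * GF β := by
  have hA : ∑ σ : Perm (Option β), fw β (swap none none * optionCongr σ) = GF (Option β) := by
    unfold GF
    exact Finset.sum_congr rfl fun σ _ => fw1 σ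
  have hB : ∑ σ : Perm (Option β), fw β (swap none (some none) * optionCongr σ) =
      ∑ σ : Perm (Option β), gw β σ := Finset.sum_congr rfl fun σ _ => fw3 σ
  have hC : ∀ b : β, ∑ σ : Perm (Option β), fw β (swap none (some (some b)) * optionCongr σ) =
      X * GF (Option β) := by
    intro b
    unfold GF
    rw [Finset.mul_sum]
    exact Finset.sum_congr rfl fun σ _ => fw2 b σ
  have hD : ∑ τ : Perm β, gw β (swap none none * optionCongr τ) = X ^ 3 * GF β := by
    unfold GF
    rw [Finset.mul_sum]
    exact Finset.sum_congr rfl fun σ _ => gw1 σ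
  have hE : ∀ b : β, ∑ τ : Perm β, gw β (swap none (some b) * optionCongr τ) = X ^ 2 * GF β := by
    intro b
    unfold GF
    rw [Finset.mul_sum]
    exact Finset.sum_congr rfl fun σ _ => gw2 b σ
  have hG : ∑ σ : Perm (Option β), gw β σ = X ^ 3 * GF β + C (Fintype.card β : ℤ) * (X ^ 2 * GF β) := by
    rw [sum_dec (gw β), hD, Finset.sum_congr rfl (fun b _ => hE b), Finset.sum_const,
      Finset.card_univ, nsmul_eq_mul, map_natCast]
  rw [sum_dec (fw β), Fintype.sum_option, hA, hB, Finset.sum_congr rfl (fun b _ => hC b), hG,
    Finset.sum_const, Finset.card_univ, nsmul_eq_mul, GF_option]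
  simp only [map_natCast, map_mul, map_add, map_one, map_ofNat]
  ring

end

end H257K
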