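import Mathlib

set_option autoImplicit false

namespace H257K

open Equiv

/-- Number of inversions, which is the Coxeter length of a permutation. -/
def inv {n : ℕ} (w : Perm (Fin n)) : ℕ :=
  (Finset.univ.filter fun p : Fin n × Fin n => p.1 < p.2 ∧ w p.2 < w p.1).card

/-- Swapping the values `a < b`, where `a` stands before `b`, increases the number of inversions. -/
theorem inv_lt {n : ℕ} (w : Perm (Fin n)) (p q : Fin n) (hpq : p < q) (hw : w p < w q) :
    inv w < inv (swap (w p) (w q) * w) := by
  set w' := swap (w p) (w q) * w with hw'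
  have e1 : w' p = w q := by rw [hw', Perm.mul_apply, swap_apply_left]
  have e2 : w' q = w p := by rw [hw', Perm.mul_apply, swap_apply_right]
  have e3 : ∀ x, x ≠ p → x ≠ q → w' x = w x := by
    intro x h1 h2
    rw [hw', Perm.mul_apply, swap_apply_of_ne_of_ne (w.injective.ne h1) (w.injective.ne h2)]
  unfold inv
  set A := Finset.univ.filter fun x : Fin n × Fin n => x.1 < x.2 ∧ w x.2 < w x.1 with hA
  set B := Finset.univ.filter fun x : Fin n × Fin n => x.1 < x.2 ∧ w' x.2 < w' x.1 with hB
  have hpB : (p, q) ∈ B := by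
    rw [hB, Finset.mem_filter]
    exact ⟨Finset.mem_univ _, hpq, by rw [e1, e2]; exact hw⟩
  rw [← Finset.card_erase_add_one hpB, Nat.lt_succ_iff]
  let f : Fin n × Fin n → Fin n × Fin n := fun x =>
    if x.2 = p ∧ w x.1 < w q then (x.1, q) else
    if x.1 = q ∧ w p < w x.2 then (p, x.2) else x
  apply Finset.card_le_card_of_injOn f
  · intro x hx
    obtain ⟨i, j⟩ := x
    rw [Finset.mem_coe, hA, Finset.mem_filter] at hx
    obtain ⟨-, hij, hv⟩ := hx
    simp only at hij hv
    rw [Finset.mem_coe, Finset.mem_erase, hB, Finset.mem_filter]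
    by_cases c1 : j = p ∧ w i < w q
    · have : f (i, j) = (i, q) := by simp only [f]; rw [if_pos c1]
      rw [this]
      obtain ⟨rfl, c⟩ := c1
      have hiq : i < q := lt_trans hij hpq
      refine ⟨?_, Finset.mem_univ _, hiq, ?_⟩
      · intro h
        exact absurd (Prod.ext_iff.1 h).1 hij.ne
      · simp only
        rw [e2, e3 i hij.ne hiq.ne]; exact hv
    · by_cases c2 : i = q ∧ w p < w j
      · have : f (i, j) = (p, j) := by simp only [f]; rw [if_neg c1, if_pos c2]
        rw [this]
        obtain ⟨rfl, c⟩ := c2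
        have hpj : p < j := lt_trans hpq hij
        refine ⟨?_, Finset.mem_univ _, hpj, ?_⟩
        · intro h
          exact absurd (Prod.ext_iff.1 h).2 hij.ne'
        · simp only
          rw [e1, e3 j hpj.ne' hij.ne']; exact hv
      · have : f (i, j) = (i, j) := by simp only [f]; rw [if_neg c1, if_neg c2]
        rw [this]
        refine ⟨?_, Finset.mem_univ _, hij, ?_⟩
        · intro h
          have h1 := (Prod.ext_iff.1 h).1
          have h2 := (Prod.ext_iff.1 h).2
          simp only at h1 h2
          rw [h1, h2] at hv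
          exact absurd hv (not_lt.2 hw.le)
        · simp only
          by_cases hip : i = p
          · by_cases hjq : j = q
            · rw [hip, hjq] at hv
              exact absurd hv (not_lt.2 hw.le)
            · have hjp : j ≠ p := by rw [← hip]; exact hij.ne'
              rw [hip, e1, e3 j hjp hjq]
              rw [hip] at hv
              exact lt_trans hv hw
          · by_cases hiq : i = q
            · have hjq : j ≠ q := by rw [← hiq]; exact hij.ne'
              have hjp : j ≠ p := by
                intro h; rw [h, hiq] at hij; exact absurd hij (not_lt.2 hpq.le)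
              rw [hiq, e2, e3 j hjp hjq]
              have : ¬ w p < w j := fun h => c2 ⟨hiq, h⟩
              exact lt_of_le_of_ne (not_lt.1 this) (w.injective.ne hjp)
            · rw [e3 i hip hiq]
              by_cases hjp : j = p
              · rw [hjp, e1]
                have : ¬ w i < w q := fun h => c1 ⟨hjp, h⟩
                exact lt_of_le_of_ne (not_lt.1 this) (w.injective.ne (Ne.symm hiq))
              · by_cases hjq : j = q
                · rw [hjq, e2]
                  rw [hjq] at hv
                  exact lt_trans hw hv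
                · rw [e3 j hjp hjq]; exact hv
  · intro x hx y hy hxy
    obtain ⟨i, j⟩ := x
    obtain ⟨i', j'⟩ := y
    rw [Finset.mem_coe, hA, Finset.mem_filter] at hx hy
    obtain ⟨-, hij, hv⟩ := hx
    obtain ⟨-, hij', hv'⟩ := hy
    simp only at hij hv hij' hv'
    simp only [f] at hxy
    have key : ∀ i : Fin n, w i < w q → ¬ w q < w i := fun i h => not_lt.2 h.le
    split_ifs at hxy with a1 a2 a3 a4 a5 a6 a7 a8 <;>
      simp only [Prod.mk.injEq] at hxy ⊢ <;> grind

/-- The length of a transposition. -/
theorem inv_swap {n : ℕ} (a b : Fin n) (hab : a < b) :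
    inv (swap a b) = 2 * ((b : ℕ) - (a : ℕ)) - 1 := by
  have h1 : (Finset.univ.filter fun p : Fin n × Fin n => p.1 < p.2 ∧ swap a b p.2 < swap a b p.1) =
      (Finset.Ioc a b).image (fun j => (a, j)) ∪ (Finset.Ioo a b).image (fun i => (i, b)) := by
    ext ⟨i, j⟩
    simp only [Finset.mem_filter, Finset.mem_univ, true_and, Finset.mem_union, Finset.mem_image,
      Finset.mem_Ioc, Finset.mem_Ioo, Prod.mk.injEq]
    have hL : (∃ x, (a < x ∧ x ≤ b) ∧ a = i ∧ x = j) ↔ (i = a ∧ a < j ∧ j ≤ b) := by
      constructor
      · rintro ⟨x, h, rfl, rfl⟩; exact ⟨rfl, h⟩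
      · rintro ⟨rfl, h⟩; exact ⟨j, h, rfl, rfl⟩
    have hR : (∃ x, (a < x ∧ x < b) ∧ x = i ∧ b = j) ↔ (j = b ∧ a < i ∧ i < b) := by
      constructor
      · rintro ⟨x, h, rfl, rfl⟩; exact ⟨rfl, h⟩
      · rintro ⟨rfl, h⟩; exact ⟨i, h, rfl, rfl⟩
    rw [hL, hR]
    simp only [swap_apply_def]
    split_ifs <;> grind
  unfold inv
  rw [h1, Finset.card_union_of_disjoint, Finset.card_image_of_injective, Finset.card_image_of_injective,
    Fin.card_Ioc, Fin.card_Ioo]
  · have : (a : ℕ) < b := hab
    omega
  · intro x y h; exact (Prod.ext_iff.1 h).1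
  · intro x y h; exact (Prod.ext_iff.1 h).2
  · rw [Finset.disjoint_left]
    rintro ⟨x, y⟩ h1 h2
    simp only [Finset.mem_image, Finset.mem_Ioc, Finset.mem_Ioo, Prod.mk.injEq] at h1 h2
    obtain ⟨z, hz, rfl, rfl⟩ := h1
    obtain ⟨t, ht, rfl, -⟩ := h2
    exact absurd ht.1 (lt_irrefl _)

end H257K
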