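import Mathlib

set_option autoImplicit false

namespace H257K

open Polynomial

/-- Nonnegative and log-concave without internal zeros, in the strong form. -/
def SLC (a : ℕ → ℤ) : Prop :=
  (∀ i, 0 ≤ a i) ∧ ∀ i j, i ≤ j → a i * a (j + 2) ≤ a (i + 1) * a (j + 1)

theorem slc_step (a : ℕ → ℤ) (c : ℤ) (hc : 0 ≤ c) (ha : SLC a) (b : ℕ → ℤ) (hb0 : b 0 = a 0)
    (hb : ∀ n, b (n + 1) = a (n + 1) + c * a n) : SLC b := by
  obtain ⟨h0, h⟩ := ha
  refine ⟨?_, ?_⟩
  · intro i
    cases i with
    | zero => rw [hb0]; exact h0 0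
    | succ n => rw [hb]; exact add_nonneg (h0 _) (mul_nonneg hc (h0 _))
  · intro i j hij
    cases i with
    | zero =>
      cases j with
      | zero =>
        have h1 := h 0 0 le_rfl
        have h2 := mul_nonneg hc (mul_nonneg (h0 0) (h0 1))
        have h3 := mul_nonneg (mul_nonneg hc hc) (mul_nonneg (h0 0) (h0 0))
        rw [hb0, hb, hb]
        simp only [zero_add] at h1 ⊢
        nlinarith [h1, h2, h3]
      | succ j =>
        have h1 := h 0 (j + 1) (Nat.zero_le _)
        have h2 := mul_nonneg hc (mul_nonneg (h0 1) (h0 (j + 1)))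
        have h3 := mul_nonneg (mul_nonneg hc hc) (mul_nonneg (h0 0) (h0 (j + 1)))
        rw [hb0, hb, hb, hb]
        simp only [zero_add] at h1 ⊢
        nlinarith [h1, h2, h3]
    | succ i =>
      cases j with
      | zero => omega
      | succ j =>
        have h1 := h (i + 1) (j + 1) hij
        have h3 := mul_le_mul_of_nonneg_left (h i j (by omega)) (mul_nonneg hc hc)
        have h2 : a i * a (j + 3) ≤ a (i + 2) * a (j + 1) := by
          have e1 := h i (j + 1) (by omega)
          rcases Nat.lt_or_ge i j with hlt | hge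
          · have e2 := h (i + 1) j (by omega)
            exact le_trans e1 e2
          · have : i = j := by omega
            subst this
            refine le_trans e1 (le_of_eq (mul_comm _ _))
        have h4 := mul_le_mul_of_nonneg_left h2 hc
        rw [hb, hb, hb, hb]
        nlinarith [h1, h3, h4]

theorem slc_poly_step (p : ℤ[X]) (c : ℤ) (hc : 0 ≤ c) (hp : SLC (fun n => p.coeff n)) :
    SLC (fun n => (p * (1 + C c * X)).coeff n) := by
  refine slc_step (fun n => p.coeff n) c hc hp _ ?_ ?_
  · simp [mul_add]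
  · intro n
    have : p * (1 + C c * X) = p + C c * p * X := by ring
    simp only [this, coeff_add, coeff_mul_X, coeff_C_mul]

theorem slc_prod (q : ℤ[X]) (hq : SLC (fun n => q.coeff n)) (N : ℕ) :
    SLC (fun n => (q * ∏ i ∈ Finset.range N, (1 + C ((i : ℤ) + 1) * X)).coeff n) := by
  induction N with
  | zero => simpa using hq
  | succ N ih =>
    rw [Finset.prod_range_succ, ← mul_assoc]
    exact slc_poly_step _ _ (by positivity) ih

theorem slc_cubic (c : ℤ) (hc : 1 ≤ c) :
    SLC (fun n => (1 + C (2 * c) * X + C (c * (c + 1)) * X ^ 2 + X ^ 3 : ℤ[X]).coeff n) := by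
  have h0 : (1 + C (2 * c) * X + C (c * (c + 1)) * X ^ 2 + X ^ 3 : ℤ[X]).coeff 0 = 1 := by
    simp [coeff_one, coeff_X_pow]
  have h1 : (1 + C (2 * c) * X + C (c * (c + 1)) * X ^ 2 + X ^ 3 : ℤ[X]).coeff 1 = 2 * c := by
    simp only [coeff_add, coeff_one, coeff_C_mul, coeff_X, coeff_X_pow]; norm_num
  have h2 : (1 + C (2 * c) * X + C (c * (c + 1)) * X ^ 2 + X ^ 3 : ℤ[X]).coeff 2 = c * (c + 1) := by
    simp only [coeff_add, coeff_one, coeff_C_mul, coeff_X, coeff_X_pow]; norm_num
  have h3 : (1 + C (2 * c) * X + C (c * (c + 1)) * X ^ 2 + X ^ 3 : ℤ[X]).coeff 3 = 1 := by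
    simp only [coeff_add, coeff_one, coeff_C_mul, coeff_X, coeff_X_pow]; norm_num
  have h4 : ∀ n, (1 + C (2 * c) * X + C (c * (c + 1)) * X ^ 2 + X ^ 3 : ℤ[X]).coeff (n + 4) = 0 := by
    intro n
    simp only [coeff_add, coeff_one, coeff_C_mul, coeff_X, coeff_X_pow]
    rw [if_neg (by omega), if_neg (by omega), if_neg (by omega), if_neg (by omega)]
    ring
  generalize hq : (1 + C (2 * c) * X + C (c * (c + 1)) * X ^ 2 + X ^ 3 : ℤ[X]) = q at *
  refine ⟨?_, ?_⟩
  · intro i
    rcases i with _ | _ | _ | _ | i
    · simp only [h0]; norm_num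
    · simp only [zero_add, h1]; linarith
    · simp only [zero_add, Nat.reduceAdd, h2]; positivity
    · simp only [zero_add, Nat.reduceAdd, h3]; norm_num
    · have := h4 i
      simp only [this, le_refl]
  · intro i j hij
    rcases j with _ | _ | j
    · have : i = 0 := by omega
      subst this
      simp only [zero_add, h0, h1, h2]; nlinarith
    · rcases i with _ | _ | i
      · simp only [zero_add, Nat.reduceAdd, h0, h1, h2, h3]
        have e1 : 1 ≤ c * (c + 1) := by nlinarith
        have e2 : 1 ≤ 2 * c := by linarith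
        have e3 := mul_le_mul e2 e1 (by norm_num) (by linarith)
        linarith
      · simp only [zero_add, Nat.reduceAdd, h1, h2, h3]
        have e1 : 1 ≤ c * (c + 1) := by nlinarith
        have e4 : 2 ≤ c + 1 := by linarith
        have e3 : 2 * c ≤ c * (c + 1) := by nlinarith
        have e5 := mul_le_mul e3 e1 (by norm_num) (by linarith)
        linarith
      · omega
    · have := h4 j
      have e : q.coeff (j + 2 + 2) = 0 := this
      simp only [e, mul_zero]
      have hn : ∀ i, 0 ≤ q.coeff i := by
        intro i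
        rcases i with _ | _ | _ | _ | i
        · simp only [h0]; norm_num
        · simp only [zero_add, h1]; linarith
        · simp only [zero_add, Nat.reduceAdd, h2]; positivity
        · simp only [zero_add, Nat.reduceAdd, h3]; norm_num
        · have := h4 i
          simp only [this, le_refl]
      exact mul_nonneg (hn _) (hn _)

theorem unimodal_of_slc (p : ℤ[X]) (hp : SLC (fun n => p.coeff n)) (h0 : 0 < p.coeff 0) :
    ∃ m, (∀ i < m, p.coeff i ≤ p.coeff (i + 1)) ∧ ∀ i, m ≤ i → p.coeff (i + 1) ≤ p.coeff i := by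
  classical
  obtain ⟨hn, h⟩ := hp
  simp only at hn h
  have hex : ∃ m, p.coeff (m + 1) < p.coeff m := by
    by_contra hcon
    simp only [not_exists, not_lt] at hcon
    have : ∀ m, p.coeff 0 ≤ p.coeff m := by
      intro m
      induction m with
      | zero => exact le_rfl
      | succ m ih => exact le_trans ih (hcon m)
    have h1 := this (p.natDegree + 1)
    rw [coeff_eq_zero_of_natDegree_lt (Nat.lt_succ_self _)] at h1
    omega
  refine ⟨Nat.find hex, ?_, ?_⟩
  · intro i hi
    exact not_lt.1 (Nat.find_min hex hi)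
  · intro i hi
    have hm := Nat.find_spec hex
    set m := Nat.find hex
    rcases Nat.eq_or_lt_of_le hi with heq | hlt
    · rw [← heq]; exact hm.le
    · obtain ⟨j, rfl⟩ : ∃ j, i = j + 1 := ⟨i - 1, by omega⟩
      have h1 := h m j (by omega)
      have hpos : 0 < p.coeff m := lt_of_le_of_lt (hn _) hm
      have h2 : p.coeff (m + 1) * p.coeff (j + 1) ≤ p.coeff m * p.coeff (j + 1) :=
        mul_le_mul_of_nonneg_right hm.le (hn _)
      exact le_of_mul_le_mul_left (le_trans h1 h2) hpos

end H257K
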