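import Mathlib

set_option autoImplicit false
set_option linter.unusedSectionVars false

namespace H257K

open Equiv Module

section lin
variable {α : Type*} [Fintype α] [DecidableEq α]

/-- Functions invariant under `w`. -/
def F (w : Perm α) : Submodule ℚ (α → ℚ) where
  carrier := {f | ∀ x, f (w x) = f x}
  add_mem' := by
    intro f g hf hg x
    simp only [Pi.add_apply]
    rw [hf x, hg x]
  zero_mem' := by intro x; rfl
  smul_mem' := by
    intro c f hf x
    simp only [Pi.smul_apply]
    rw [hf x]

theorem mem_F {w : Perm α} {f : α → ℚ} : f ∈ F w ↔ ∀ x, f (w x) = f x := Iff.rfl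

/-- The functional `f ↦ f a - f b`. -/
def phi (a b : α) : (α → ℚ) →ₗ[ℚ] ℚ where
  toFun := fun f => f a - f b
  map_add' := by intro f g; simp only [Pi.add_apply]; ring
  map_smul' := by intro c f; simp only [Pi.smul_apply, smul_eq_mul, RingHom.id_apply]; ring

theorem mem_ker_phi {a b : α} {f : α → ℚ} : f ∈ LinearMap.ker (phi a b) ↔ f a = f b := by
  rw [LinearMap.mem_ker]
  exact sub_eq_zero

/-- Number of cycles, as a dimension. -/
noncomputable def cyc (w : Perm α) : ℕ := finrank ℚ (F w)

/-- Absolute length. -/
noncomputable def r (w : Perm α) : ℕ := Fintype.card α - cyc w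

theorem cyc_le (w : Perm α) : cyc w ≤ Fintype.card α := by
  have := Submodule.finrank_le (F w)
  simpa [cyc] using this

theorem r_add (w : Perm α) : r w + cyc w = Fintype.card α := by
  have := cyc_le w
  unfold r; omega

theorem inf_le (a b : α) (w : Perm α) :
    F w ⊓ LinearMap.ker (phi a b) ≤ F (swap a b * w) := by
  intro f hf
  obtain ⟨h1, h2⟩ := Submodule.mem_inf.1 hf
  rw [mem_ker_phi] at h2
  rw [mem_F] at h1 ⊢
  intro x
  rw [Perm.mul_apply, ← h1 x]
  by_cases ha : w x = a
  · rw [ha, swap_apply_left, h2]
  · by_cases hb : w x = b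
    · rw [hb, swap_apply_right, h2]
    · rw [swap_apply_of_ne_of_ne ha hb]

theorem finrank_inf (a b : α) (w : Perm α) :
    cyc w ≤ finrank ℚ ↥(F w ⊓ LinearMap.ker (phi a b)) + 1 := by
  have h1 := Submodule.finrank_sup_add_finrank_inf_eq (F w) (LinearMap.ker (phi a b))
  have h2 : finrank ℚ ↥(F w ⊔ LinearMap.ker (phi a b)) ≤ finrank ℚ (α → ℚ) := Submodule.finrank_le _
  have h3 := LinearMap.finrank_range_add_finrank_ker (phi a b)
  have h4 : finrank ℚ ↥(LinearMap.range (phi a b)) ≤ finrank ℚ ℚ := Submodule.finrank_le _
  rw [finrank_self] at h4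
  unfold cyc
  omega

theorem r_swap_le (a b : α) (w : Perm α) : r (swap a b * w) ≤ r w + 1 := by
  have h1 := finrank_inf a b w
  have h2 : finrank ℚ ↥(F w ⊓ LinearMap.ker (phi a b)) ≤ cyc (swap a b * w) :=
    Submodule.finrank_mono (inf_le a b w)
  have h3 := r_add w
  have h4 := r_add (swap a b * w)
  omega

theorem F_eq_of_r (a b : α) (w : Perm α) (h : r (swap a b * w) = r w + 1) :
    F (swap a b * w) ≤ F w ∧ ∀ f ∈ F (swap a b * w), f a = f b := by
  have h1 := finrank_inf a b w
  have h3 := r_add w
  have h4 := r_add (swap a b * w)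
  have h5 : F w ⊓ LinearMap.ker (phi a b) = F (swap a b * w) := by
    apply Submodule.eq_of_le_of_finrank_le (inf_le a b w)
    have : finrank ℚ ↥(F (swap a b * w)) = cyc (swap a b * w) := rfl
    omega
  constructor
  · rw [← h5]; exact inf_le_left
  · intro f hf
    rw [← h5] at hf
    exact mem_ker_phi.1 (Submodule.mem_inf.1 hf).2

theorem r_swap_fixed {z p : α} {w : Perm α} (hz : w z = z) (hp : p ≠ z) :
    r (swap z p * w) = r w + 1 := by
  have h1 := finrank_inf z p w
  have h3 := r_add w
  have h4 := r_add (swap z p * w)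
  have h5 : F (swap z p * w) ≤ F w ⊓ LinearMap.ker (phi z p) := by
    intro f hf
    rw [mem_F] at hf
    have e1 : f p = f z := by
      have := hf z
      rwa [Perm.mul_apply, hz, swap_apply_left] at this
    refine Submodule.mem_inf.2 ⟨?_, mem_ker_phi.2 e1.symm⟩
    rw [mem_F]
    intro x
    have hx := hf x
    rw [Perm.mul_apply] at hx
    rw [← hx]
    by_cases ha : w x = z
    · rw [ha, swap_apply_left, e1]
    · by_cases hb : w x = p
      · rw [hb, swap_apply_right, e1]
      · rw [swap_apply_of_ne_of_ne ha hb]
  have h6 : F w ⊓ LinearMap.ker (phi z p) < F w := by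
    refine lt_of_le_of_ne inf_le_left ?_
    intro heq
    have hg : (fun x => if x = z then (1 : ℚ) else 0) ∈ F w := by
      rw [mem_F]
      intro x
      by_cases hx : x = z
      · simp [hx, hz]
      · have : w x ≠ z := fun h => hx (w.injective (h.trans hz.symm))
        simp [hx, this]
    rw [← heq] at hg
    have := mem_ker_phi.1 (Submodule.mem_inf.1 hg).2
    simp [hp] at this
  have h7 := Submodule.finrank_lt_finrank_of_lt h6
  have h8 := Submodule.finrank_mono h5
  have h9 : finrank ℚ ↥(F w) = cyc w := rfl
  have h10 : finrank ℚ ↥(F (swap z p * w)) = cyc (swap z p * w) := rfl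
  have h11 : finrank ℚ ↥(F w ⊓ LinearMap.ker (phi z p)) ≤ cyc (swap z p * w) :=
    Submodule.finrank_mono (inf_le z p w)
  omega

theorem r_one : r (1 : Perm α) = 0 := by
  have : F (1 : Perm α) = ⊤ := by
    rw [eq_top_iff]; intro f _; rw [mem_F]; intro x; rfl
  unfold r cyc
  rw [this]
  simp

theorem cyc_option (u : Perm α) : cyc (optionCongr u : Perm (Option α)) = cyc u + 1 := by
  let e : ↥(F (optionCongr u : Perm (Option α))) ≃ₗ[ℚ] ℚ × ↥(F u) :=
    { toFun := fun f => (f.1 none, ⟨fun a => f.1 (some a), by
        rw [mem_F]; intro x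
        have := f.2 (some x)
        simpa using this⟩)
      map_add' := by intro f g; rfl
      map_smul' := by intro c f; rfl
      invFun := fun q => ⟨fun o => o.elim q.1 q.2.1, by
        rw [mem_F]; intro x
        cases x with
        | none => rfl
        | some x => exact q.2.2 x⟩
      left_inv := by
        intro f; ext x; cases x <;> rfl
      right_inv := by
        intro q; rfl }
  have := LinearEquiv.finrank_eq e
  unfold cyc
  rw [this, finrank_prod, finrank_self]
  omega

theorem r_option (u : Perm α) : r (optionCongr u : Perm (Option α)) = r u := by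
  have h1 := r_add u
  have h2 := r_add (optionCongr u : Perm (Option α))
  rw [cyc_option, Fintype.card_option] at h2
  omega

theorem cyc_congr {β : Type*} [Fintype β] [DecidableEq β] (e : α ≃ β) (w : Perm α) :
    cyc (e.permCongr w) = cyc w := by
  let E : ↥(F (e.permCongr w)) ≃ₗ[ℚ] ↥(F w) :=
    { toFun := fun f => ⟨fun a => f.1 (e a), by
        rw [mem_F]; intro x
        have := f.2 (e x)
        simpa using this⟩
      map_add' := by intro f g; rfl
      map_smul' := by intro c f; rfl
      invFun := fun f => ⟨fun b => f.1 (e.symm b), by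
        rw [mem_F]; intro x
        have := f.2 (e.symm x)
        simpa using this⟩
      left_inv := by
        intro f; ext x; simp
      right_inv := by
        intro f; ext x; simp }
  exact LinearEquiv.finrank_eq E

theorem r_congr {β : Type*} [Fintype β] [DecidableEq β] (e : α ≃ β) (w : Perm α) :
    r (e.permCongr w) = r w := by
  have h1 := r_add w
  have h2 := r_add (e.permCongr w)
  rw [cyc_congr, ← Fintype.card_congr e] at h2
  omega

end lin

end H257K
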