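import Pool.Agent.H257K.Lin
import Pool.Agent.H257K.Inv

set_option autoImplicit false

namespace H257K

open Equiv

/-- The Bruhat order of `S_n`: the transitive closure of `a < t a` for transpositions `t` that increase the length. -/
def Bruhat {n : ℕ} (a b : Perm (Fin n)) : Prop :=
  Relation.TransGen (fun x y : Perm (Fin n) => (x * y⁻¹).IsSwap ∧ inv x < inv y) a b

/-- The arrows of the `k`-Bruhat graph. -/
def Arrow {n : ℕ} (k : ℕ) (a b : Perm (Fin n)) : Prop :=
  ((a * b⁻¹).IsSwap ∧ inv (a * b⁻¹) ≤ 2 * k + 1) ∧ Bruhat a b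

/-- `Path k m w`: there is a directed path with `m` arrows from the identity to `w`. -/
inductive Path {n : ℕ} (k : ℕ) : ℕ → Perm (Fin n) → Prop
  | nil : Path k 0 1
  | step {m : ℕ} {a b : Perm (Fin n)} : Path k m a → Arrow k a b → Path k (m + 1) b

/-- The `k`-absolute length. -/
noncomputable def klen {n : ℕ} (k : ℕ) (w : Perm (Fin n)) : ℕ := sInf {m | Path k m w}

theorem arrow_swap {n k : ℕ} (a b : Fin n) (hab : a < b) (hk : 2 * ((b : ℕ) - a) - 1 ≤ 2 * k + 1)
    (w : Perm (Fin n)) (hw : w⁻¹ a < w⁻¹ b) : Arrow k w (swap a b * w) := by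
  have e : w * (swap a b * w)⁻¹ = swap a b := by
    rw [mul_inv_rev, mul_inv_cancel_left, swap_inv]
  have hs : (swap a b).IsSwap := ⟨a, b, hab.ne, rfl⟩
  have hi : inv w < inv (swap a b * w) := by
    have h := inv_lt w (w⁻¹ a) (w⁻¹ b) hw (by simpa using hab)
    simpa using h
  refine ⟨⟨by rw [e]; exact hs, by rw [e, inv_swap a b hab]; exact hk⟩, ?_⟩
  exact Relation.TransGen.single ⟨by rw [e]; exact hs, hi⟩

/-- The two extreme elements form a 2-cycle of `w`. -/
def Bad {N : ℕ} (w : Perm (Fin (N + 3))) : Prop := w 0 = Fin.last (N + 2) ∧ w (Fin.last (N + 2)) = 0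

instance {N : ℕ} (w : Perm (Fin (N + 3))) : Decidable (Bad w) := by unfold Bad; infer_instance

theorem not_bad_of_fixed_last {N : ℕ} (w : Perm (Fin (N + 3)))
    (h : w (Fin.last (N + 2)) = Fin.last (N + 2)) : ¬ Bad w := by
  rintro ⟨-, h2⟩
  rw [h] at h2
  exact absurd h2 (Fin.last_pos).ne'

theorem not_bad_of_fixed_zero {N : ℕ} (w : Perm (Fin (N + 3))) (h : w 0 = 0) : ¬ Bad w := by
  rintro ⟨h1, -⟩
  rw [h] at h1
  exact absurd h1 (Fin.last_pos).ne

theorem path_exists {N : ℕ} : ∀ (m : ℕ) (w : Perm (Fin (N + 3))), r w = m → ¬ Bad w → Path N m w := by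
  intro m
  induction m using Nat.strong_induction_on with
  | _ m ih =>
    intro w hr hb
    by_cases h1 : w = 1
    · subst h1
      rw [r_one] at hr
      subst hr
      exact Path.nil
    -- largest moved element
    have hne : w.support.Nonempty := by
      rw [Finset.nonempty_iff_ne_empty]
      intro h
      exact h1 (Perm.support_eq_empty_iff.1 h)
    obtain ⟨z, hz, hmax⟩ : ∃ z, w z ≠ z ∧ ∀ x, z < x → w x = x := by
      refine ⟨w.support.max' hne, Perm.mem_support.1 (Finset.max'_mem _ hne), ?_⟩
      intro x hx
      by_contra hc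
      exact absurd (Finset.le_max' _ x (Perm.mem_support.2 hc)) (not_le.2 hx)
    by_cases hcase : z = Fin.last (N + 2) ∧ w z = 0
    · obtain ⟨hzl, hwz⟩ := hcase
      subst hzl
      have hq : w 0 ≠ Fin.last (N + 2) := fun h => hb ⟨h, hwz⟩
      have hq0 : w 0 ≠ 0 := by
        intro h
        have := w.injective (h.trans hwz.symm)
        exact absurd this (Fin.last_pos).ne
      set w' := swap 0 (w 0) * w with hw'
      have hf : w' 0 = 0 := by rw [hw', Perm.mul_apply, swap_apply_right]
      have hww : w = swap 0 (w 0) * w' := by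
        rw [hw', ← mul_assoc, swap_mul_self, one_mul]
      have hr' : r w = r w' + 1 := by
        conv_lhs => rw [hww]
        exact r_swap_fixed hf hq0
      have hp := ih (r w') (by omega) w' rfl (not_bad_of_fixed_zero w' hf)
      have harr : Arrow N w' (swap 0 (w 0) * w') := by
        have hlt : (0 : Fin (N + 3)) < w 0 := Fin.pos_of_ne_zero hq0
        refine arrow_swap 0 (w 0) hlt ?_ w' ?_
        · have h2 : (w 0 : ℕ) ≠ N + 2 := fun h => hq (Fin.ext h)
          have h3 := (w 0).isLt
          have h4 : ((0 : Fin (N + 3)) : ℕ) = 0 := rfl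
          omega
        · have e0 : w'⁻¹ 0 = 0 := by
            rw [Perm.inv_eq_iff_eq]; exact hf.symm
          rw [e0]
          apply Fin.pos_of_ne_zero
          intro h
          rw [Perm.inv_eq_iff_eq, hf] at h
          exact hq0 h
      rw [← hww] at harr
      have := Path.step hp harr
      rwa [← hr', hr] at this
    · set p := w z with hpdef
      have hpz : p < z := by
        rcases lt_trichotomy p z with h | h | h
        · exact h
        · exact absurd h hz
        · have := hmax p h
          exact absurd (w.injective this) hz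
      set w' := swap z p * w with hw'
      have hf : w' z = z := by rw [hw', Perm.mul_apply, ← hpdef, swap_apply_right]
      have hww : w = swap z p * w' := by
        rw [hw', ← mul_assoc, swap_mul_self, one_mul]
      have hr' : r w = r w' + 1 := by
        conv_lhs => rw [hww]
        exact r_swap_fixed hf hpz.ne
      have hgt : ∀ x, z < x → w' x = x := by
        intro x hx
        rw [hw', Perm.mul_apply, hmax x hx, swap_apply_of_ne_of_ne hx.ne' (lt_trans hpz hx).ne']
      have hfl : w' (Fin.last (N + 2)) = Fin.last (N + 2) := by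
        rcases (Fin.le_last z).eq_or_lt with h | h
        · rw [← h]; exact hf
        · exact hgt _ h
      have hp := ih (r w') (by omega) w' rfl (not_bad_of_fixed_last w' hfl)
      have harr : Arrow N w' (swap p z * w') := by
        refine arrow_swap p z hpz ?_ w' ?_
        · have h3 := z.isLt
          have h5 : (p : ℕ) < z := hpz
          by_cases hzl : z = Fin.last (N + 2)
          · have hp0 : (p : ℕ) ≠ 0 := fun h => hcase ⟨hzl, Fin.ext h⟩
            omega
          · have : (z : ℕ) ≠ N + 2 := fun h => hzl (Fin.ext h)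
            omega
        · have e0 : w'⁻¹ z = z := by
            rw [Perm.inv_eq_iff_eq]; exact hf.symm
          rw [e0]
          by_contra hcon
          rcases (not_lt.1 hcon).eq_or_lt with h | h
          · have := (Perm.inv_eq_iff_eq.1 h.symm)
            rw [hf] at this
            exact absurd this hpz.ne
          · have h6 := hgt _ h
            rw [show w' (w'⁻¹ p) = p by simp] at h6
            rw [← h6] at h
            exact absurd h (not_lt.2 hpz.le)
      rw [swap_comm p z, ← hww] at harr
      have := Path.step hp harr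
      rwa [← hr', hr] at this

theorem path_exists_bad {N : ℕ} (w : Perm (Fin (N + 3))) (hb : Bad w) : Path N (r w + 2) w := by
  obtain ⟨hb1, hb2⟩ := hb
  set L := Fin.last (N + 2) with hL
  set o : Fin (N + 3) := ⟨1, by omega⟩ with ho
  have ho0 : (0 : Fin (N + 3)) < o := by rw [Fin.lt_def]; simp [ho]
  have hoL : o < L := by rw [Fin.lt_def]; simp [ho, hL]
  have h0L : (0 : Fin (N + 3)) < L := lt_trans ho0 hoL
  set u := swap 0 L * w with hu
  have hu0 : u 0 = 0 := by rw [hu, Perm.mul_apply, hb1, swap_apply_right]
  have huL : u L = L := by rw [hu, Perm.mul_apply, hb2, swap_apply_left]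
  have hww : w = swap 0 L * u := by rw [hu, ← mul_assoc, swap_mul_self, one_mul]
  have hr' : r w = r u + 1 := by
    conv_lhs => rw [hww]
    exact r_swap_fixed hu0 h0L.ne'
  have i0 : u⁻¹ 0 = 0 := by rw [Perm.inv_eq_iff_eq]; exact hu0.symm
  have iL : u⁻¹ L = L := by rw [Perm.inv_eq_iff_eq]; exact huL.symm
  have hq0 : u⁻¹ o ≠ 0 := by
    intro h; rw [Perm.inv_eq_iff_eq, hu0] at h; exact ho0.ne' h
  have hqL : u⁻¹ o ≠ L := by
    intro h; rw [Perm.inv_eq_iff_eq, huL] at h; exact hoL.ne h
  have hp := path_exists (r u) u rfl (not_bad_of_fixed_zero u hu0)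
  have v0 : ((0 : Fin (N + 3)) : ℕ) = 0 := rfl
  have vo : (o : ℕ) = 1 := rfl
  have vL : (L : ℕ) = N + 2 := rfl
  have a1 : Arrow N u (swap 0 o * u) := by
    refine arrow_swap 0 o ho0 (by omega) u ?_
    rw [i0]; exact Fin.pos_of_ne_zero hq0
  have a2 : Arrow N (swap 0 o * u) (swap o L * (swap 0 o * u)) := by
    refine arrow_swap o L hoL (by omega) _ ?_
    rw [mul_inv_rev, swap_inv, Perm.mul_apply, Perm.mul_apply, swap_apply_right, i0,
      swap_apply_of_ne_of_ne h0L.ne' hoL.ne', iL]
    exact h0L
  have a3 : Arrow N (swap o L * (swap 0 o * u)) (swap 0 o * (swap o L * (swap 0 o * u))) := by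
    refine arrow_swap 0 o ho0 (by omega) _ ?_
    rw [mul_inv_rev, swap_inv, mul_inv_rev, swap_inv]
    simp only [Perm.mul_apply]
    rw [swap_apply_left o L, swap_apply_of_ne_of_ne ho0.ne h0L.ne, swap_apply_left 0 o,
      swap_apply_of_ne_of_ne h0L.ne' hoL.ne', iL]
    exact lt_of_le_of_ne (Fin.le_last _) hqL
  have he : swap 0 o * (swap o L * (swap 0 o * u)) = w := by
    rw [hww, ← mul_assoc, ← mul_assoc]
    congr 1
    have := swap_mul_swap_mul_swap (x := L) (y := o) (z := 0) hoL.ne' h0L.ne'
    rw [swap_comm 0 o, swap_comm o L]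
    exact this
  rw [he] at a3
  have := ((hp.step a1).step a2).step a3
  rwa [show r w + 2 = r u + 1 + 1 + 1 by omega]

theorem r_le_of_path {N k : ℕ} {m : ℕ} {w : Perm (Fin (N + 3))} (h : Path k m w) : r w ≤ m := by
  induction h with
  | nil => rw [r_one]
  | step _ harr ih =>
    rename_i m a b _
    obtain ⟨x, y, hxy, he⟩ := harr.1.1
    have hb : b = swap x y * a := by
      have : a = swap x y * b := by rw [← he, mul_assoc, inv_mul_cancel, mul_one]
      rw [this, ← mul_assoc, swap_mul_self, one_mul]
    rw [hb]
    exact (r_swap_le x y a).trans (by omega)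

theorem sign_of_path {N k : ℕ} {m : ℕ} {w : Perm (Fin (N + 3))} (h : Path k m w) :
    Perm.sign w = (-1) ^ m := by
  induction h with
  | nil => simp
  | step _ harr ih =>
    rename_i m a b _
    obtain ⟨x, y, hxy, he⟩ := harr.1.1
    have hb : b = swap x y * a := by
      have : a = swap x y * b := by rw [← he, mul_assoc, inv_mul_cancel, mul_one]
      rw [this, ← mul_assoc, swap_mul_self, one_mul]
    rw [hb, Perm.sign_mul, Perm.sign_swap hxy, ih, pow_succ']

theorem not_minimal {N : ℕ} {m : ℕ} {w : Perm (Fin (N + 3))} (h : Path N m w) (hm : r w = m) : ¬ Bad w := by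
  induction h with
  | nil => exact not_bad_of_fixed_zero 1 rfl
  | step hpath harr ih =>
    rename_i m a b
    intro hbad
    obtain ⟨⟨⟨x, y, hxy, he⟩, hlen⟩, -⟩ := harr
    have ha : a = swap x y * b := by rw [← he, mul_assoc, inv_mul_cancel, mul_one]
    have hb : b = swap x y * a := by rw [ha, ← mul_assoc, swap_mul_self, one_mul]
    have h1 := r_le_of_path hpath
    have h2 := r_swap_le x y a
    rw [← hb] at h2
    have h3 : r a = m := by omega
    have h4 : r (swap x y * a) = r a + 1 := by rw [← hb]; omega
    obtain ⟨-, h5⟩ := F_eq_of_r x y a h4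
    rw [← hb] at h5
    set L := Fin.last (N + 2) with hL
    have h0L : (0 : Fin (N + 3)) ≠ L := (Fin.last_pos).ne
    obtain ⟨b1, b2⟩ := hbad
    have hg : (fun z => if z = 0 ∨ z = L then (1 : ℚ) else 0) ∈ F b := by
      rw [mem_F]
      intro z
      by_cases hz0 : z = 0
      · subst hz0; rw [b1]; simp [hL]
      · by_cases hzL : z = L
        · rw [hzL, b2]; simp
        · have e1 : b z ≠ 0 := fun h => hzL (b.injective (h.trans b2.symm))
          have e2 : b z ≠ L := fun h => hz0 (b.injective (h.trans b1.symm))
          simp [hz0, hzL, e1, e2]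
    have h6 : (if x = 0 ∨ x = L then (1 : ℚ) else 0) = if y = 0 ∨ y = L then 1 else 0 := h5 _ hg
    by_cases hx : x = 0 ∨ x = L
    · have hy : y = 0 ∨ y = L := by
        by_contra hc
        rw [if_pos hx, if_neg hc] at h6
        norm_num at h6
      have hs : swap x y = swap 0 L := by
        rcases hx with rfl | rfl
        · rcases hy with rfl | rfl
          · exact absurd rfl hxy
          · rfl
        · rcases hy with rfl | rfl
          · exact swap_comm _ _
          · exact absurd rfl hxy
      rw [he, hs, inv_swap 0 L Fin.last_pos] at hlen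
      have v0 : ((0 : Fin (N + 3)) : ℕ) = 0 := rfl
      have vL : (L : ℕ) = N + 2 := rfl
      omega
    · have hy : ¬ (y = 0 ∨ y = L) := by
        intro hc
        rw [if_neg hx, if_pos hc] at h6
        norm_num at h6
      push Not at hx hy
      apply ih h3
      constructor
      · rw [ha, Perm.mul_apply, b1, swap_apply_of_ne_of_ne hx.2.symm hy.2.symm]
      · rw [ha, Perm.mul_apply, b2, swap_apply_of_ne_of_ne hx.1.symm hy.1.symm]

/-- The `N`-absolute length in `S_(N+3)`. -/
theorem klen_eq {N : ℕ} (w : Perm (Fin (N + 3))) : klen N w = r w + if Bad w then 2 else 0 := by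
  unfold klen
  by_cases hb : Bad w
  · rw [if_pos hb]
    apply le_antisymm
    · exact Nat.sInf_le (path_exists_bad w hb)
    · have hne : {m | Path N m w}.Nonempty := ⟨_, path_exists_bad w hb⟩
      refine le_csInf hne ?_
      intro m hm
      have h1 := r_le_of_path hm
      have h2 : r w ≠ m := fun h => not_minimal hm h hb
      have h3 := sign_of_path hm
      have h4 := sign_of_path (path_exists_bad w hb)
      rw [h3] at h4
      have h5 : m ≠ r w + 1 := by
        rintro rfl
        rcases Nat.even_or_odd (r w) with he | ho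
        · rw [he.add_one.neg_one_pow, (he.add even_two).neg_one_pow] at h4
          exact absurd h4 (by decide)
        · rw [ho.add_one.neg_one_pow, (ho.add_even even_two).neg_one_pow] at h4
          exact absurd h4 (by decide)
      omega
  · rw [if_neg hb, add_zero]
    apply le_antisymm
    · exact Nat.sInf_le (path_exists (r w) w rfl hb)
    · have hne : {m | Path N m w}.Nonempty := ⟨_, path_exists (r w) w rfl hb⟩
      refine le_csInf hne ?_
      intro m hm
      exact r_le_of_path hm

end H257K
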